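import Mathlib

/-!
# Degree-square Turan number of the strong 4-vertex tournament (MP_be36ad_co)

`ex_2^+(m, R_4)` is the largest value of the sum of the squares of the out-degrees over all
loopless `R_4`-free digraphs on `m` vertices.  We determine it for every `m`:

* `ex_2^+(3q, R_4) = 12 q^3`,
* `ex_2^+(3q+1, R_4) = 3q (2q+1)^2`,
* `ex_2^+(3q+2, R_4) = 2 (q+1) (6q^2+6q+1)`.

Proof.  Lower bound: complete multipartite digraphs with three balanced classes (plus one sink
vertex if `m = 3q+1`).  Upper bound: in an extremal digraph, cloning shows that two nonadjacent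
vertices have the same in-neighbours and the same out-degree; so nonadjacency is an equivalence
relation and the digraph is a weighted semicomplete digraph.  A strong semicomplete digraph on at
least four vertices contains `R_4`, so the initial strong component has at most three vertices,
and an induction with an exact cubic inequality finishes the proof.
-/

namespace Pool.Agent.Results.MP_be36ad_co.DegreeSquare

open Finset

/-- The digraph `D` contains (as a not necessarily induced subdigraph) the tournament `R_4` with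
vertices `1, 2, 3, 4` and arcs `12, 23, 34, 41, 13, 24`. -/
def HasR4 {V : Type*} (D : V → V → Prop) : Prop :=
  ∃ a b c d : V, [a, b, c, d].Nodup ∧ D a b ∧ D b c ∧ D c d ∧ D d a ∧ D a c ∧ D b d

/-- Out-degree of the vertex `v`. -/
noncomputable def outDeg {V : Type*} (D : V → V → Prop) (v : V) : ℕ := Set.ncard {w | D v w}

/-- The sum of the squares of the out-degrees. -/
noncomputable def degSq {V : Type*} [Fintype V] (D : V → V → Prop) : ℕ := ∑ v, outDeg D v ^ 2

/-- The set of all values of the degree-square sum over the loopless `R_4`-free digraphs on `m`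
vertices; its greatest element is `ex_2^+(m, R_4)`. -/
def sums (m : ℕ) : Set ℕ :=
  {s | ∃ D : Fin m → Fin m → Prop, (∀ v, ¬ D v v) ∧ ¬ HasR4 D ∧ degSq D = s}

/-- The correction term (nine times the defect from the cubic bound). -/
def g (m : ℤ) : ℤ := (m % 3) * (3 * m + 1)

lemma Qpos (x y z : ℤ) (h : x + y + z = 0) (hx : x ≠ 0) (hy : y ≠ 0) (hz : z ≠ 0) :
    6 ≤ x ^ 2 + y ^ 2 + z ^ 2 := by
  have hx2 : x ≤ -1 ∨ 1 ≤ x := by omega
  have hy2 : y ≤ -1 ∨ 1 ≤ y := by omega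
  have hz : z = - x - y := by omega
  subst hz
  rcases hx2 with hx2 | hx2 <;> rcases hy2 with hy2 | hy2
  · nlinarith [mul_nonneg (by omega : 0 ≤ -1 - x) (by omega : 0 ≤ -1 - y)]
  · rcases (by omega : x + y ≤ -1 ∨ 1 ≤ x + y) with h | h
    · nlinarith [mul_nonneg (by omega : 0 ≤ -1 - (x + y)) (by omega : 0 ≤ y - 1)]
    · nlinarith [mul_nonneg (by omega : 0 ≤ (x + y) - 1) (by omega : 0 ≤ -1 - x)]
  · rcases (by omega : x + y ≤ -1 ∨ 1 ≤ x + y) with h | h
    · nlinarith [mul_nonneg (by omega : 0 ≤ -1 - (x + y)) (by omega : 0 ≤ x - 1)]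
    · nlinarith [mul_nonneg (by omega : 0 ≤ (x + y) - 1) (by omega : 0 ≤ -1 - y)]
  · nlinarith [mul_nonneg (by omega : 0 ≤ x - 1) (by omega : 0 ≤ y - 1)]

lemma tight (x y z N : ℤ) (hN : 1 ≤ N) (h : x + y + z = 0) (hx : x % 3 = 1) (hy : y % 3 = 1)
    (hz : z % 3 = 1) (hq : 3 * (x * y * z) ≤ N * (x ^ 2 + y ^ 2 + z ^ 2)) :
    6 * N + 2 ≤ N * (x ^ 2 + y ^ 2 + z ^ 2) - x * y * z := by
  rcases le_or_gt 9 (x ^ 2 + y ^ 2 + z ^ 2) with h9 | h9
  · rcases le_or_gt 18 (x ^ 2 + y ^ 2 + z ^ 2) with h18 | h18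
    · nlinarith
    · have h1 : x ≤ 4 := by nlinarith
      have h2 : -5 ≤ x := by nlinarith
      have h3 : y ≤ 4 := by nlinarith
      have h4 : -5 ≤ y := by nlinarith
      have hz : z = - x - y := by omega
      subst hz
      have hx3 : x = -5 ∨ x = -2 ∨ x = 1 ∨ x = 4 := by omega
      have hy3 : y = -5 ∨ y = -2 ∨ y = 1 ∨ y = 4 := by omega
      rcases hx3 with rfl | rfl | rfl | rfl <;> rcases hy3 with rfl | rfl | rfl | rfl <;>
        (clear hq; first | (exfalso; norm_num at h18; done) | (exfalso; norm_num at hz; done) | (exfalso; norm_num at h9))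
  · have h1 : x ≤ 2 := by nlinarith
    have h2 : -2 ≤ x := by nlinarith
    have h3 : y ≤ 2 := by nlinarith
    have h4 : -2 ≤ y := by nlinarith
    have hz : z = - x - y := by omega
    subst hz
    have hx3 : x = -2 ∨ x = 1 := by omega
    have hy3 : y = -2 ∨ y = 1 := by omega
    rcases hx3 with rfl | rfl <;> rcases hy3 with rfl | rfl <;>
      first | (exfalso; norm_num at hz; done) | (exfalso; norm_num at h9; done) | (norm_num; linarith)

lemma key (a b c M : ℤ) (ha : 0 ≤ a) (hb : 0 ≤ b) (hc : 0 ≤ c) (hM : 0 ≤ M) :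
    9 * (a * (a + b + c + M - a) ^ 2 + b * (a + b + c + M - b) ^ 2 + c * (a + b + c + M - c) ^ 2)
      + g (a + b + c + M) + 4 * M ^ 3 - g M ≤ 4 * (a + b + c + M) ^ 3 := by
  obtain ⟨N, hN⟩ : ∃ N, N = a + b + c := ⟨_, rfl⟩
  obtain ⟨x, hx⟩ : ∃ x, x = 3 * a - N := ⟨_, rfl⟩
  obtain ⟨y, hy⟩ : ∃ y, y = 3 * b - N := ⟨_, rfl⟩
  obtain ⟨z, hz⟩ : ∃ z, z = 3 * c - N := ⟨_, rfl⟩
  have hsum : x + y + z = 0 := by omega
  have id1 : 4 * (a + b + c + M) ^ 3 - 9 * (a * (a + b + c + M - a) ^ 2 +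
      b * (a + b + c + M - b) ^ 2 + c * (a + b + c + M - c) ^ 2) - 4 * M ^ 3
      = 3 * N * M ^ 2 + (N + 2 * M) * (x ^ 2 + y ^ 2 + z ^ 2) - x * y * z := by
    subst hx hy hz hN; ring
  have id2 : N * (x ^ 2 + y ^ 2 + z ^ 2) - 3 * (x * y * z) =
      9 * (a * (b - c) ^ 2 + b * (c - a) ^ 2 + c * (a - b) ^ 2) := by
    subst hx hy hz hN; ring
  have hq : 3 * (x * y * z) ≤ N * (x ^ 2 + y ^ 2 + z ^ 2) := by
    have : 0 ≤ 9 * (a * (b - c) ^ 2 + b * (c - a) ^ 2 + c * (a - b) ^ 2) := by positivity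
    omega
  have hN0 : 0 ≤ N := by omega
  have hg : g (a + b + c + M) = ((N + M) % 3) * (3 * (N + M) + 1) := by
    unfold g; rw [← hN]
  have hg2 : g M = (M % 3) * (3 * M + 1) := rfl
  suffices h : ((N + M) % 3) * (3 * (N + M) + 1) - (M % 3) * (3 * M + 1) ≤
      3 * N * M ^ 2 + (N + 2 * M) * (x ^ 2 + y ^ 2 + z ^ 2) - x * y * z by
    rw [hg, hg2]; linarith
  clear id1 hg hg2 id2
  obtain ⟨Q, hQ⟩ : ∃ Q, Q = x ^ 2 + y ^ 2 + z ^ 2 := ⟨_, rfl⟩
  obtain ⟨P, hP⟩ : ∃ P, P = x * y * z := ⟨_, rfl⟩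
  have hQ0 : 0 ≤ Q := by rw [hQ]; positivity
  have hQ6 : N % 3 ≠ 0 → 6 ≤ Q := by
    intro h
    rw [hQ]
    exact Qpos x y z hsum (by omega) (by omega) (by omega)
  have htight : N % 3 = 2 → 6 * N + 2 ≤ N * Q - P := by
    intro h
    rw [hQ, hP]
    exact tight x y z N (by omega) hsum (by omega) (by omega) (by omega) hq
  rw [← hQ, ← hP] at hq
  rw [← hQ, ← hP]
  have hNQ : 0 ≤ N * Q := mul_nonneg hN0 hQ0
  have hPb : P * 3 ≤ N * Q := by linarith
  have hMQ : 0 ≤ M * Q := mul_nonneg hM hQ0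
  have hPc : P ≤ N * Q := by
    by_cases h : 0 ≤ P
    · linarith
    · linarith
  have e1 : 3 * N * M ^ 2 + (N + 2 * M) * Q - P = 3 * (N * M ^ 2) + (N * Q - P) + 2 * (M * Q) := by
    ring
  rw [e1]
  have hNM : 0 ≤ N * M ^ 2 := by positivity
  rcases (by omega : N % 3 = 0 ∨ N % 3 = 1 ∨ N % 3 = 2) with hN3 | hN3 | hN3
  · rcases (by omega : M % 3 = 0 ∨ M % 3 = 1 ∨ M % 3 = 2) with hM3 | hM3 | hM3
    · rw [(by omega : (N + M) % 3 = 0), hM3]; linarith
    · rw [(by omega : (N + M) % 3 = 1), hM3]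
      have : N * 1 ≤ N * M ^ 2 := mul_le_mul_of_nonneg_left (by nlinarith [(by omega : 1 ≤ M)]) hN0
      linarith
    · rw [(by omega : (N + M) % 3 = 2), hM3]
      have : N * 4 ≤ N * M ^ 2 := mul_le_mul_of_nonneg_left (by nlinarith [(by omega : 2 ≤ M)]) hN0
      linarith
  · have h6 := hQ6 (by omega)
    have hN1 : 1 ≤ N := by omega
    have h6N : N * 6 ≤ N * Q := mul_le_mul_of_nonneg_left h6 hN0
    have h6M : M * 6 ≤ M * Q := mul_le_mul_of_nonneg_left h6 hM
    rcases (by omega : M % 3 = 0 ∨ M % 3 = 1 ∨ M % 3 = 2) with hM3 | hM3 | hM3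
    · rw [(by omega : (N + M) % 3 = 1), hM3]
      linarith
    · rw [(by omega : (N + M) % 3 = 2), hM3]
      have : N * 1 ≤ N * M ^ 2 := mul_le_mul_of_nonneg_left (by nlinarith [(by omega : 1 ≤ M)]) hN0
      linarith
    · rw [(by omega : (N + M) % 3 = 0), hM3]
      linarith
  · have h6 := hQ6 (by omega)
    have hN1 : 1 ≤ N := by omega
    have h6N : N * 6 ≤ N * Q := mul_le_mul_of_nonneg_left h6 hN0
    have h6M : M * 6 ≤ M * Q := mul_le_mul_of_nonneg_left h6 hM
    have ht := htight hN3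
    rcases (by omega : M % 3 = 0 ∨ M % 3 = 1 ∨ M % 3 = 2) with hM3 | hM3 | hM3
    · rw [(by omega : (N + M) % 3 = 2), hM3]
      linarith
    · rw [(by omega : (N + M) % 3 = 0), hM3]
      linarith
    · rw [(by omega : (N + M) % 3 = 1), hM3]
      have : N * 4 ≤ N * M ^ 2 := mul_le_mul_of_nonneg_left (by nlinarith [(by omega : 2 ≤ M)]) hN0
      linarith

lemma hasR4_of {V : Type*} {D : V → V → Prop} (irr : ∀ v, ¬ D v v) {a b c d : V}
    (h1 : D a b) (h2 : D b c) (h3 : D c d) (h4 : D d a) (h5 : D a c) (h6 : D b d) : HasR4 D := by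
  have key : ∀ {x y : V}, D x y → x ≠ y := fun {x y} h e => irr y (e ▸ h)
  refine ⟨a, b, c, d, ?_, h1, h2, h3, h4, h5, h6⟩
  simp only [List.nodup_cons, List.mem_cons, List.not_mem_nil, or_false, not_or, not_false_eq_true,
    List.nodup_nil, and_true]
  exact ⟨⟨key h1, key h5, (key h4).symm⟩, ⟨key h2, key h6⟩, key h3⟩

lemma four_cycle {V : Type*} {D : V → V → Prop} (irr : ∀ v, ¬ D v v) {a b c d : V}
    (h1 : D a b) (h2 : D b c) (h3 : D c d) (h4 : D d a) (hac : D a c ∨ D c a)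
    (hbd : D b d ∨ D d b) : HasR4 D := by
  rcases hac with h | h <;> rcases hbd with h' | h'
  · exact hasR4_of irr h1 h2 h3 h4 h h'
  · exact hasR4_of irr h4 h1 h2 h3 h' h
  · exact hasR4_of irr h2 h3 h4 h1 h' h
  · exact hasR4_of irr h3 h4 h1 h2 h h'

lemma strong4 {α : Type*} [DecidableEq α] {R : α → α → Prop} (irr : ∀ v, ¬ R v v) (B : Finset α)
    (h4 : 4 ≤ B.card) (sc : ∀ x ∈ B, ∀ y ∈ B, x ≠ y → R x y ∨ R y x)
    (cut : ∀ A ⊆ B, A.Nonempty → A ≠ B → ∃ x ∈ B \ A, ∃ y ∈ A, R x y) : HasR4 R := by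
  classical
  by_contra hno
  -- a three-cycle
  have h3 : ∃ a ∈ B, ∃ b ∈ B, ∃ c ∈ B, a ≠ b ∧ b ≠ c ∧ c ≠ a ∧ R a b ∧ R b c ∧ R c a := by
    by_cases hc : ∀ x ∈ B, ∀ y ∈ B, x ≠ y → R x y
    · obtain ⟨a, ha, b, hb, c, hc', hab, hac, hbc⟩ :=
        Finset.two_lt_card.1 (by omega : 2 < B.card)
      exact ⟨a, ha, b, hb, c, hc', hab, hbc, hac.symm, hc a ha b hb hab, hc b hb c hc' hbc,
        hc c hc' a ha hac.symm⟩
    · push Not at hc
      obtain ⟨v, hv, w, hw, hvw, hR⟩ := hc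
      obtain ⟨x, hx, y, hy, hxy⟩ := cut (B.filter (fun u => u ≠ v ∧ ¬ R v u))
        (Finset.filter_subset _ _) ⟨w, by simp [hw, hvw.symm, hR]⟩ (by
          intro h
          have : v ∈ B.filter (fun u => u ≠ v ∧ ¬ R v u) := by rw [h]; exact hv
          simp at this)
      simp only [Finset.mem_sdiff, Finset.mem_filter, not_and, not_not] at hx hy
      have hxv : x ≠ v := by
        rintro rfl
        exact hy.2.2 hxy
      have hvx : R v x := hx.2 hx.1 hxv
      have hyv : R y v := (sc y hy.1 v hv hy.2.1).resolve_right hy.2.2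
      refine ⟨v, hv, x, hx.1, y, hy.1, hxv.symm, ?_, hy.2.1, hvx, hxy, hyv⟩
      rintro rfl
      exact irr _ hxy
  obtain ⟨a, ha, b, hb, c, hc, hab, hbc, hca, Rab, Rbc, Rca⟩ := h3
  have hC : ({a, b, c} : Finset α) ⊆ B := by
    intro x hx
    simp only [Finset.mem_insert, Finset.mem_singleton] at hx
    rcases hx with rfl | rfl | rfl <;> assumption
  have hCc : ({a, b, c} : Finset α).card ≤ 3 := Finset.card_le_three
  have typ : ∀ w ∈ B, w ∉ ({a, b, c} : Finset α) →
      (R a w ∧ R b w ∧ R c w ∧ ¬ R w a ∧ ¬ R w b ∧ ¬ R w c) ∨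
      (R w a ∧ R w b ∧ R w c ∧ ¬ R a w ∧ ¬ R b w ∧ ¬ R c w) := by
    intro w hw hwC
    simp only [Finset.mem_insert, Finset.mem_singleton, not_or] at hwC
    obtain ⟨wa, wb, wc⟩ := hwC
    have s1 := sc a ha w hw (Ne.symm wa)
    have s2 := sc b hb w hw (Ne.symm wb)
    have s3 := sc c hc w hw (Ne.symm wc)
    have i1 : ¬ (R a w ∧ R w b) := fun h =>
      hno (four_cycle irr h.1 h.2 Rbc Rca (Or.inl Rab) s3.symm)
    have i2 : ¬ (R b w ∧ R w c) := fun h =>
      hno (four_cycle irr h.1 h.2 Rca Rab (Or.inl Rbc) s1.symm)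
    have i3 : ¬ (R c w ∧ R w a) := fun h =>
      hno (four_cycle irr h.1 h.2 Rab Rbc (Or.inl Rca) s2.symm)
    tauto
  -- a source exists
  obtain ⟨x, hx, y, hy, hxy⟩ := cut {a, b, c} hC ⟨a, by simp⟩ (by
    intro h
    rw [h] at hCc
    omega)
  have hx' := Finset.mem_sdiff.1 hx
  have hxs : R x a := by
    rcases typ x hx'.1 hx'.2 with h | h
    · simp only [Finset.mem_insert, Finset.mem_singleton] at hy
      rcases hy with rfl | rfl | rfl
      · exact absurd hxy h.2.2.2.1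
      · exact absurd hxy h.2.2.2.2.1
      · exact absurd hxy h.2.2.2.2.2
    · exact h.1
  obtain ⟨z, hz, t, ht, hzt⟩ := cut (B.filter (fun u => u ∉ ({a, b, c} : Finset α) ∧ R u a))
    (Finset.filter_subset _ _) ⟨x, by
      rw [Finset.mem_filter]; exact ⟨hx'.1, hx'.2, hxs⟩⟩ (by
      intro h
      have : a ∈ B.filter (fun u => u ∉ ({a, b, c} : Finset α) ∧ R u a) := by rw [h]; exact ha
      simp at this)
  rw [Finset.mem_filter] at ht
  rw [Finset.mem_sdiff, Finset.mem_filter] at hz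
  obtain ⟨htB, htC, hta⟩ := ht
  have htt := (typ t htB htC).resolve_left (fun h => h.2.2.2.1 hta)
  by_cases hzC : z ∈ ({a, b, c} : Finset α)
  · simp only [Finset.mem_insert, Finset.mem_singleton] at hzC
    rcases hzC with rfl | rfl | rfl
    · exact htt.2.2.2.1 hzt
    · exact htt.2.2.2.2.1 hzt
    · exact htt.2.2.2.2.2 hzt
  · have hza : ¬ R z a := fun h => hz.2 ⟨hz.1, hzC, h⟩
    have hzz := (typ z hz.1 hzC).resolve_right (fun h => hza h.1)
    exact hno (four_cycle irr hzz.1 hzt htt.2.2.1 Rca (Or.inr hta) (Or.inr hzz.2.2.1))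

lemma minB {α : Type*} [DecidableEq α] {R : α → α → Prop} (irr : ∀ v, ¬ R v v)
    (noR : ¬ HasR4 R) (I : Finset α) (hI : I.Nonempty)
    (sc : ∀ x ∈ I, ∀ y ∈ I, x ≠ y → R x y ∨ R y x) :
    ∃ B ⊆ I, B.Nonempty ∧ B.card ≤ 3 ∧ ∀ x ∈ I \ B, ∀ y ∈ B, ¬ R x y := by
  classical
  obtain ⟨B, hB, hmin⟩ := Finset.exists_min_image
    (I.powerset.filter (fun B => B.Nonempty ∧ ∀ x ∈ I \ B, ∀ y ∈ B, ¬ R x y)) Finset.card
    ⟨I, by simp [hI]; intro x hx hx'; exact absurd hx hx'⟩
  rw [Finset.mem_filter, Finset.mem_powerset] at hB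
  obtain ⟨hBI, hBne, hBcl⟩ := hB
  refine ⟨B, hBI, hBne, ?_, hBcl⟩
  by_contra h4
  push Not at h4
  apply noR
  refine strong4 irr B (by omega) (fun x hx y hy => sc x (hBI hx) y (hBI hy)) ?_
  intro A hAB hA hne
  by_contra hcon
  push Not at hcon
  have hlt : A.card < B.card := Finset.card_lt_card (Finset.ssubset_iff_subset_ne.2 ⟨hAB, hne⟩)
  have := hmin A (by
    rw [Finset.mem_filter, Finset.mem_powerset]
    refine ⟨hAB.trans hBI, hA, ?_⟩
    intro x hx y hy
    rw [Finset.mem_sdiff] at hx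
    by_cases hxB : x ∈ B
    · exact hcon x (Finset.mem_sdiff.2 ⟨hxB, hx.2⟩) y hy
    · exact hBcl x (Finset.mem_sdiff.2 ⟨hx.1, hxB⟩) y (hAB hy))
  omega

lemma upper {α : Type*} [DecidableEq α] {R : α → α → Prop} [DecidableRel R]
    (irr : ∀ v, ¬ R v v) (noR : ¬ HasR4 R) (n : α → ℕ) (I : Finset α) :
    (∀ x ∈ I, ∀ y ∈ I, x ≠ y → R x y ∨ R y x) →
    9 * ∑ i ∈ I, (n i : ℤ) * (∑ j ∈ I, if R i j then (n j : ℤ) else 0) ^ 2
      + g (∑ i ∈ I, (n i : ℤ)) ≤ 4 * (∑ i ∈ I, (n i : ℤ)) ^ 3 := by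
  induction I using Finset.strongInduction with
  | H I ih =>
  intro sc
  rcases I.eq_empty_or_nonempty with rfl | hI
  · simp [g]
  obtain ⟨B, hBI, hBne, hBc, hBcl⟩ := minB irr noR I hI sc
  have hlt : I \ B ⊂ I := Finset.sdiff_ssubset hBI hBne
  have IH := ih (I \ B) hlt (fun x hx y hy =>
    sc x (Finset.mem_sdiff.1 hx).1 y (Finset.mem_sdiff.1 hy).1)
  obtain ⟨M, hM⟩ : ∃ M : ℤ, M = ∑ i ∈ I \ B, (n i : ℤ) := ⟨_, rfl⟩
  obtain ⟨m, hm⟩ : ∃ m : ℤ, m = ∑ i ∈ I, (n i : ℤ) := ⟨_, rfl⟩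
  have hmM : m = M + ∑ i ∈ B, (n i : ℤ) := by
    rw [hm, hM, Finset.sum_sdiff hBI]
  have hM0 : 0 ≤ M := by rw [hM]; positivity
  rw [← hM] at IH
  rw [← hm]
  have hJ : ∑ i ∈ I \ B, (n i : ℤ) * (∑ j ∈ I, if R i j then (n j : ℤ) else 0) ^ 2 =
      ∑ i ∈ I \ B, (n i : ℤ) * (∑ j ∈ I \ B, if R i j then (n j : ℤ) else 0) ^ 2 := by
    refine Finset.sum_congr rfl fun i hi => ?_
    have : ∑ j ∈ B, (if R i j then (n j : ℤ) else 0) = 0 := by
      refine Finset.sum_eq_zero fun j hj => ?_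
      rw [if_neg (hBcl i hi j hj)]
    rw [← Finset.sum_sdiff hBI, this, add_zero]
  have hB : ∑ i ∈ B, (n i : ℤ) * (∑ j ∈ I, if R i j then (n j : ℤ) else 0) ^ 2 ≤
      ∑ i ∈ B, (n i : ℤ) * (m - n i) ^ 2 := by
    refine Finset.sum_le_sum fun i hi => ?_
    refine mul_le_mul_of_nonneg_left ?_ (by positivity)
    have h1 : ∑ j ∈ I, (if R i j then (n j : ℤ) else 0) ≤ m - n i := by
      have e : m - n i = ∑ j ∈ I.erase i, (n j : ℤ) := by
        rw [hm, ← Finset.sum_erase_add I _ (hBI hi)]; ring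
      rw [e, ← Finset.sum_erase_add I _ (hBI hi), if_neg (irr i), add_zero]
      refine Finset.sum_le_sum fun j _ => ?_
      split_ifs
      · exact le_rfl
      · positivity
    have h0 : 0 ≤ ∑ j ∈ I, (if R i j then (n j : ℤ) else 0) :=
      Finset.sum_nonneg fun j _ => by split_ifs <;> positivity
    exact pow_le_pow_left₀ h0 h1 2
  rw [← Finset.sum_sdiff hBI, hJ]
  have main : 9 * ∑ i ∈ B, (n i : ℤ) * (m - n i) ^ 2 + g m + 4 * M ^ 3 - g M ≤ 4 * m ^ 3 := by
    have hc : B.card = 1 ∨ B.card = 2 ∨ B.card = 3 := by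
      have := hBne.card_pos
      omega
    rcases hc with hc | hc | hc
    · obtain ⟨a, rfl⟩ := Finset.card_eq_one.1 hc
      rw [Finset.sum_singleton] at hmM ⊢
      have := key (n a) 0 0 M (by positivity) le_rfl le_rfl hM0
      rw [hmM]
      simp only [add_zero, zero_mul] at this
      rw [add_comm M (n a : ℤ)]
      exact this
    · obtain ⟨a, b, hab, rfl⟩ := Finset.card_eq_two.1 hc
      rw [Finset.sum_pair hab] at hmM ⊢
      have := key (n a) (n b) 0 M (by positivity) (by positivity) le_rfl hM0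
      rw [hmM]
      simp only [add_zero, zero_mul] at this
      rw [add_comm M ((n a : ℤ) + n b)]
      exact this
    · obtain ⟨a, b, c, hab, hac, hbc, rfl⟩ := Finset.card_eq_three.1 hc
      rw [Finset.sum_insert (by simp [hab, hac]), Finset.sum_pair hbc] at hmM ⊢
      have := key (n a) (n b) (n c) M (by positivity) (by positivity) (by positivity) hM0
      rw [hmM]
      rw [add_comm M ((n a : ℤ) + ((n b : ℤ) + n c)), ← add_assoc, ← add_assoc]
      exact this
  linarith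

open Classical in
lemma outDeg_eq {V : Type*} [Fintype V] (D : V → V → Prop) (v : V) :
    (outDeg D v : ℤ) = ∑ w, if D v w then (1 : ℤ) else 0 := by
  unfold outDeg
  rw [Set.ncard_eq_toFinset_card', Finset.sum_boole]
  congr 2
  ext w
  simp

lemma not_hasR4_pull {V W : Type*} {D : V → V → Prop} (irr : ∀ v, ¬ D v v) (h : ¬ HasR4 D)
    (φ : W → V) : ¬ HasR4 (fun x y => D (φ x) (φ y)) := by
  rintro ⟨a, b, c, d, -, h1, h2, h3, h4, h5, h6⟩
  exact h (hasR4_of irr h1 h2 h3 h4 h5 h6)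

lemma degSq_equiv {V W : Type*} [Fintype V] [Fintype W] (e : V ≃ W) (D : W → W → Prop) :
    degSq (fun x y => D (e x) (e y)) = degSq D := by
  classical
  unfold degSq
  rw [← Equiv.sum_comp e]
  refine Finset.sum_congr rfl fun v _ => ?_
  have : (outDeg (fun x y => D (e x) (e y)) v : ℤ) = outDeg D (e v) := by
    rw [outDeg_eq, outDeg_eq, ← Equiv.sum_comp e]
  have h : outDeg (fun x y => D (e x) (e y)) v = outDeg D (e v) := by exact_mod_cast this
  rw [h]

lemma sum_upd {V : Type*} [Fintype V] [DecidableEq V] (f : V → ℤ) (u v : V) :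
    ∑ w, f (Function.update id u v w) = ∑ w, f w - f u + f v := by
  rw [← Finset.add_sum_erase _ _ (Finset.mem_univ u), ← Finset.add_sum_erase _ f (Finset.mem_univ u)]
  have : ∑ x ∈ univ.erase u, f (Function.update id u v x) = ∑ x ∈ univ.erase u, f x := by
    refine Finset.sum_congr rfl fun x hx => ?_
    rw [Function.update_of_ne (Finset.ne_of_mem_erase hx)]
    rfl
  rw [this, Function.update_self]
  ring

open Classical in
lemma degSq_clone {V : Type*} [Fintype V] (D : V → V → Prop) (irr : ∀ v, ¬ D v v)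
    (u v : V) (h1 : ¬ D u v) (h2 : ¬ D v u) :
    (degSq (fun x y => D (Function.update id u v x) (Function.update id u v y)) : ℤ) =
    ∑ x, ((outDeg D x : ℤ) - (if D x u then 1 else 0) + (if D x v then 1 else 0)) ^ 2
      - (outDeg D u : ℤ) ^ 2 + (outDeg D v : ℤ) ^ 2 := by
  unfold degSq
  push_cast
  have e : ∀ x, (outDeg (fun x y => D (Function.update id u v x) (Function.update id u v y)) x : ℤ) =
      (outDeg D (Function.update id u v x) : ℤ)
        - (if D (Function.update id u v x) u then 1 else 0)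
        + (if D (Function.update id u v x) v then 1 else 0) := by
    intro x
    rw [outDeg_eq, outDeg_eq]
    exact sum_upd (fun w => if D (Function.update id u v x) w then (1 : ℤ) else 0) u v
  simp only [e]
  rw [sum_upd (fun x => ((outDeg D x : ℤ) - (if D x u then 1 else 0)
    + (if D x v then 1 else 0)) ^ 2) u v]
  simp [h1, h2, irr u, irr v]

lemma twin {V : Type*} [Fintype V] (D : V → V → Prop) (irr : ∀ v, ¬ D v v) (noR : ¬ HasR4 D)
    (hmax : ∀ D' : V → V → Prop, (∀ v, ¬ D' v v) → ¬ HasR4 D' → degSq D' ≤ degSq D)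
    (u v : V) (h1 : ¬ D u v) (h2 : ¬ D v u) :
    (∀ x, D x u ↔ D x v) ∧ outDeg D u = outDeg D v := by
  classical
  have c1 := degSq_clone D irr u v h1 h2
  have c2 := degSq_clone D irr v u h2 h1
  have m1 : (degSq (fun x y => D (Function.update id u v x) (Function.update id u v y)) : ℤ)
      ≤ degSq D := by
    exact_mod_cast hmax (fun x y => D (Function.update id u v x) (Function.update id u v y))
      (fun x => irr _) (not_hasR4_pull irr noR _)
  have m2 : (degSq (fun x y => D (Function.update id v u x) (Function.update id v u y)) : ℤ)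
      ≤ degSq D := by
    exact_mod_cast hmax (fun x y => D (Function.update id v u x) (Function.update id v u y))
      (fun x => irr _) (not_hasR4_pull irr noR _)
  have hD : (degSq D : ℤ) = ∑ x, (outDeg D x : ℤ) ^ 2 := by
    unfold degSq; push_cast; rfl
  have hsum : ∑ x, ((outDeg D x : ℤ) - (if D x u then 1 else 0) + (if D x v then 1 else 0)) ^ 2
      + ∑ x, ((outDeg D x : ℤ) - (if D x v then 1 else 0) + (if D x u then 1 else 0)) ^ 2
      = 2 * ∑ x, (outDeg D x : ℤ) ^ 2 +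
        2 * ∑ x, ((if D x u then (1 : ℤ) else 0) - (if D x v then 1 else 0)) ^ 2 := by
    rw [Finset.mul_sum, Finset.mul_sum, ← Finset.sum_add_distrib, ← Finset.sum_add_distrib]
    refine Finset.sum_congr rfl fun x _ => ?_
    ring
  have hz : ∑ x, ((if D x u then (1 : ℤ) else 0) - (if D x v then 1 else 0)) ^ 2 = 0 := by
    have : 0 ≤ ∑ x, ((if D x u then (1 : ℤ) else 0) - (if D x v then 1 else 0)) ^ 2 :=
      Finset.sum_nonneg fun x _ => sq_nonneg _
    linarith
  have hx : ∀ x, ((if D x u then (1 : ℤ) else 0) - (if D x v then 1 else 0)) ^ 2 = 0 := by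
    intro x
    exact (Finset.sum_eq_zero_iff_of_nonneg (fun x _ => sq_nonneg _)).1 hz x (Finset.mem_univ x)
  have hiff : ∀ x, D x u ↔ D x v := by
    intro x
    have := hx x
    by_cases a : D x u <;> by_cases b : D x v <;> simp [a, b] at this ⊢
  refine ⟨hiff, ?_⟩
  have s1 : ∑ x, ((outDeg D x : ℤ) - (if D x u then 1 else 0) + (if D x v then 1 else 0)) ^ 2
      = ∑ x, (outDeg D x : ℤ) ^ 2 := by
    refine Finset.sum_congr rfl fun x _ => ?_
    simp only [hiff x]
    ring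
  have s2 : ∑ x, ((outDeg D x : ℤ) - (if D x v then 1 else 0) + (if D x u then 1 else 0)) ^ 2
      = ∑ x, (outDeg D x : ℤ) ^ 2 := by
    refine Finset.sum_congr rfl fun x _ => ?_
    simp only [hiff x]
    ring
  have hsq : (outDeg D u : ℤ) ^ 2 = (outDeg D v : ℤ) ^ 2 := by linarith
  have : (outDeg D u : ℤ) = outDeg D v := by
    have h0 := Int.natCast_nonneg (outDeg D u)
    have h0' := Int.natCast_nonneg (outDeg D v)
    exact (sq_eq_sq₀ h0 h0').1 hsq
  exact_mod_cast this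

lemma upper_max {V : Type*} [Fintype V] (D : V → V → Prop) (irr : ∀ v, ¬ D v v)
    (noR : ¬ HasR4 D)
    (hmax : ∀ D' : V → V → Prop, (∀ v, ¬ D' v v) → ¬ HasR4 D' → degSq D' ≤ degSq D) :
    9 * (degSq D : ℤ) + g (Fintype.card V) ≤ 4 * (Fintype.card V : ℤ) ^ 3 := by
  classical
  have tw := twin D irr noR hmax
  let s : Setoid V :=
    { r := fun x y => ¬ D x y ∧ ¬ D y x
      iseqv :=
        { refl := fun x => ⟨irr x, irr x⟩
          symm := fun h => ⟨h.2, h.1⟩
          trans := by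
            intro x y z hxy hyz
            refine ⟨fun h => ?_, fun h => ?_⟩
            · exact hxy.1 (((tw y z hyz.1 hyz.2).1 x).2 h)
            · exact hyz.2 (((tw x y hxy.1 hxy.2).1 z).1 h) } }
  let r : V → V := fun x => (Quotient.mk s x).out
  have hr : ∀ x, ¬ D (r x) x ∧ ¬ D x (r x) := fun x => Quotient.mk_out (s := s) x
  have hr2 : ∀ x y, ¬ D x y → ¬ D y x → r x = r y := by
    intro x y h1 h2
    have : Quotient.mk s x = Quotient.mk s y := Quotient.sound ⟨h1, h2⟩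
    simp only [r, this]
  have hDr : ∀ x y, D x y ↔ D x (r y) := fun x y => (tw y (r y) (hr y).2 (hr y).1).1 x
  have hdr : ∀ x, outDeg D x = outDeg D (r x) := fun x => (tw x (r x) (hr x).2 (hr x).1).2
  obtain ⟨n, hn⟩ : ∃ n : V → ℕ, n = fun i => (univ.filter (fun x => r x = i)).card := ⟨_, rfl⟩
  have hrr : ∀ x, r (r x) = r x := fun x => hr2 _ _ (hr x).1 (hr x).2
  have key := upper irr noR n (univ.image r) (by
    intro x hx y hy hxy
    simp only [Finset.mem_image, Finset.mem_univ, true_and] at hx hy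
    obtain ⟨x', rfl⟩ := hx
    obtain ⟨y', rfl⟩ := hy
    by_contra hcon
    push Not at hcon
    apply hxy
    rw [← hrr x', ← hrr y']
    exact hr2 _ _ hcon.1 hcon.2)
  have hcard : ∑ i ∈ univ.image r, (n i : ℤ) = Fintype.card V := by
    have := Finset.sum_comp (s := (univ : Finset V)) (fun _ : V => (1 : ℤ)) r
    simp only [Finset.sum_const, Finset.card_univ, smul_eq_mul, mul_one, nsmul_eq_mul] at this
    rw [this, hn]
  have hod : ∀ i, (∑ j ∈ univ.image r, if D i j then (n j : ℤ) else 0) = outDeg D i := by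
    intro i
    rw [outDeg_eq]
    have := Finset.sum_comp (s := (univ : Finset V)) (fun j : V => if D i j then (1 : ℤ) else 0) r
    simp only [← hDr] at this
    rw [this, hn]
    refine Finset.sum_congr rfl fun j _ => ?_
    simp
  have hds : ∑ i ∈ univ.image r, (n i : ℤ) * (∑ j ∈ univ.image r, if D i j then (n j : ℤ) else 0) ^ 2
      = degSq D := by
    simp only [hod]
    unfold degSq
    push_cast
    have := Finset.sum_comp (s := (univ : Finset V)) (fun j : V => (outDeg D j : ℤ) ^ 2) r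
    simp only [← hdr] at this
    rw [this, hn]
    refine Finset.sum_congr rfl fun j _ => ?_
    simp
  rw [hds, hcard] at key
  exact key

lemma upper_all (m : ℕ) (s : ℕ) (hs : s ∈ sums m) : 9 * (s : ℤ) + g m ≤ 4 * (m : ℤ) ^ 3 := by
  classical
  obtain ⟨D, irr, noR, rfl⟩ := hs
  have hfin : Finite {D : Fin m → Fin m → Prop // (∀ v, ¬ D v v) ∧ ¬ HasR4 D} := inferInstance
  have hne : Nonempty {D : Fin m → Fin m → Prop // (∀ v, ¬ D v v) ∧ ¬ HasR4 D} := ⟨⟨D, irr, noR⟩⟩
  obtain ⟨⟨E, hE1, hE2⟩, hE⟩ := Finite.exists_max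
    (fun D : {D : Fin m → Fin m → Prop // (∀ v, ¬ D v v) ∧ ¬ HasR4 D} => degSq D.1)
  have h1 := upper_max E hE1 hE2 (fun D' h h' => hE ⟨D', h, h'⟩)
  rw [Fintype.card_fin] at h1
  have h2 : degSq D ≤ degSq E := hE ⟨D, irr, noR⟩
  have h3 : (degSq D : ℤ) ≤ degSq E := by exact_mod_cast h2
  linarith

/-- the pattern -/
def P (i j : Fin 4) : Prop := i ≠ j ∧ i ≠ 3

instance : DecidableRel P := fun i j => by unfold P; infer_instance

lemma P_noR4 : ¬ HasR4 P := by
  unfold HasR4 P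
  decide +kernel

lemma lower (w : Fin 4 → ℕ) (m : ℕ) (hm : w 0 + w 1 + w 2 + w 3 = m) :
    w 0 * (w 1 + w 2 + w 3) ^ 2 + w 1 * (w 0 + w 2 + w 3) ^ 2 + w 2 * (w 0 + w 1 + w 3) ^ 2
      ∈ sums m := by
  classical
  have hcard : Fintype.card (Fin m) = Fintype.card (Σ i : Fin 4, Fin (w i)) := by
    rw [Fintype.card_sigma]
    simp [Fin.sum_univ_four, hm]
  obtain ⟨e⟩ := Fintype.card_eq.1 hcard
  have irrP : ∀ i, ¬ P i i := fun i h => h.1 rfl
  refine ⟨fun x y => P (e x).1 (e y).1, fun v => irrP _, not_hasR4_pull irrP P_noR4 _, ?_⟩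
  rw [degSq_equiv e (fun x y : Σ i : Fin 4, Fin (w i) => P x.1 y.1)]
  have od : ∀ v : Σ i : Fin 4, Fin (w i),
      outDeg (fun x y : Σ i : Fin 4, Fin (w i) => P x.1 y.1) v = ∑ j, if P v.1 j then w j else 0 := by
    intro v
    have := outDeg_eq (fun x y : Σ i : Fin 4, Fin (w i) => P x.1 y.1) v
    rw [Fintype.sum_sigma] at this
    simp only [Finset.sum_const, Finset.card_univ, Fintype.card_fin, nsmul_eq_mul, mul_ite,
      mul_one, mul_zero] at this
    zify
    rw [this]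
    refine Finset.sum_congr rfl fun j _ => ?_
    split_ifs <;> simp
  unfold degSq
  simp only [od]
  rw [Fintype.sum_sigma]
  simp only [Finset.sum_const, Finset.card_univ, Fintype.card_fin, smul_eq_mul, Fin.sum_univ_four]
  simp [P]

/-- **`ex_2^+(m, R_4)` for every `m`**: it is `12 q^3` for `m = 3q`, `3q (2q+1)^2` for
`m = 3q+1` and `2 (q+1) (6q^2+6q+1)` for `m = 3q+2`. -/
theorem result (q : ℕ) :
    IsGreatest (sums (3 * q)) (12 * q ^ 3) ∧
    IsGreatest (sums (3 * q + 1)) (3 * q * (2 * q + 1) ^ 2) ∧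
    IsGreatest (sums (3 * q + 2)) (2 * (q + 1) * (6 * q ^ 2 + 6 * q + 1)) := by
  refine ⟨⟨?_, ?_⟩, ⟨?_, ?_⟩, ⟨?_, ?_⟩⟩
  · have := lower ![q, q, q, 0] (3 * q) (by simp; ring)
    simp at this
    convert this using 1
    ring
  · intro s hs
    have h := upper_all _ s hs
    have hg : g ((3 * q : ℕ) : ℤ) = 0 := by
      unfold g
      rw [(by omega : ((3 * q : ℕ) : ℤ) % 3 = 0)]
      ring
    rw [hg] at h
    push_cast at h
    zify
    linarith [(by ring : 4 * (3 * (q : ℤ)) ^ 3 = 9 * (12 * (q : ℤ) ^ 3))]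
  · have := lower ![q, q, q, 1] (3 * q + 1) (by simp; ring)
    simp at this
    convert this using 1
    ring
  · intro s hs
    have h := upper_all _ s hs
    have hg : g ((3 * q + 1 : ℕ) : ℤ) = 3 * (3 * (q : ℤ) + 1) + 1 := by
      unfold g
      rw [(by omega : ((3 * q + 1 : ℕ) : ℤ) % 3 = 1)]
      push_cast
      ring
    rw [hg] at h
    push_cast at h
    zify
    linarith [(by ring : 4 * (3 * (q : ℤ) + 1) ^ 3 = 9 * (3 * (q : ℤ) * (2 * q + 1) ^ 2)
      + (3 * (3 * (q : ℤ) + 1) + 1))]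
  · have := lower ![q + 1, q + 1, q, 0] (3 * q + 2) (by simp; ring)
    simp at this
    convert this using 1
    ring
  · intro s hs
    have h := upper_all _ s hs
    have hg : g ((3 * q + 2 : ℕ) : ℤ) = 2 * (3 * (3 * (q : ℤ) + 2) + 1) := by
      unfold g
      rw [(by omega : ((3 * q + 2 : ℕ) : ℤ) % 3 = 2)]
      push_cast
      ring
    rw [hg] at h
    push_cast at h
    zify
    linarith [(by ring : 4 * (3 * (q : ℤ) + 2) ^ 3 = 9 * (2 * ((q : ℤ) + 1) * (6 * q ^ 2 + 6 * q + 1))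
      + 2 * (3 * (3 * (q : ℤ) + 2) + 1))]

end Pool.Agent.Results.MP_be36ad_co.DegreeSquare
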